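import Pool.Agent.H7.HD.Targets12
import Pool.Agent.H64.HDA.DN
import Pool.Agent.H63.HDA.LI
import Pool.Agent.H1.HD9.Y5

/-!
# LOS of hd8_modules: the theorem of Łoś for the structures `(V_ (b + 1))^HOD` (MP_e37c09_lc)
-/

open Ordinal Cardinal Order Set
open scoped ZFSet

universe u

namespace Pool.Agent.H68.HDB.LOS

open _root_.HD
open Pool.Agent.H64.HDA.DN (nm_not nm_ne ds_compl ds_inter ds_empty do_sInf)
open Pool.Agent.H63.HDA.LI (dzc)
open Pool.Agent.H1.HD9.Y5 (hod_iV)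

theorem mem_V {x : ZFSet.{u}} {a : Ordinal.{u}} : x ∈ V_ a ↔ x.rank < a := ZFSet.mem_vonNeumann

/-- traces of elements of `(V_ (κ + 1))^HOD` -/
theorem vh_tr {κ : Ordinal.{u}} {x : ZFSet.{u}} (hx : VH κ x) (b : Ordinal.{u}) :
    VH b (x ∩ V_ b) := ⟨hod_iV hx.1 b, fun _ hy => (ZFSet.mem_inter.1 hy).2⟩

theorem inter_eq {b : Ordinal.{u}} {x : ZFSet.{u}} (hx : x ⊆ V_ b) : x ∩ V_ b = x := by
  ext w
  rw [ZFSet.mem_inter]
  exact ⟨fun h => h.1, fun h => ⟨h, hx h⟩⟩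

theorem sub_V {b : Ordinal.{u}} {x : ZFSet.{u}} (hx : x.rank ≤ b) : x ⊆ V_ b := fun w hw => by
  rw [mem_V]
  exact (ZFSet.rank_lt_of_mem hw).trans_le hx

theorem ds_gt (a : Ordinal.{u}) : DS {b | a < b} := DO.gtc 0 a

/-- a set containing all large `b` -/
theorem nm_large {κ : Ordinal.{u}} {W : ZFSet.{u}} (hW : NMe κ W) {X : Set Ordinal.{u}}
    (hX : DS X) {a : Ordinal.{u}} (ha : a < κ) (h : ∀ b < κ, a < b → b ∈ X) : os κ X ∈ W :=
  hW.up {b | a < b} X (ds_gt a) hX (hW.gt a ha) fun b hb hb' => h b hb hb'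

/-- two sets of the ultrafilter meet above every point -/
theorem nm_meet {κ : Ordinal.{u}} {W : ZFSet.{u}} (hW : NMe κ W) {X Y : Set Ordinal.{u}}
    (hX : DS X) (hY : DS Y) (h1 : os κ X ∈ W) (h2 : os κ Y ∈ W) {a : Ordinal.{u}} (ha : a < κ) :
    ∃ b < κ, a < b ∧ b ∈ X ∧ b ∈ Y := by
  have h3 := hW.int _ _ (ds_inter hX hY) (ds_gt a) (hW.int _ _ hX hY h1 h2) (hW.gt a ha)
  obtain ⟨b, hb, ⟨h4, h5⟩, h6⟩ := nm_ne hW (ds_inter (ds_inter hX hY) (ds_gt a)) h3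
  exact ⟨b, hb, h6, h4, h5⟩

theorem tr_cons (x : ZFSet.{u}) (v : ℕ → ZFSet.{u}) (b : Ordinal.{u}) :
    tr (cons x v) b = cons (x ∩ V_ b) (tr v b) := by
  funext n
  rcases n with _ | n <;> rfl

/-- `{b | y ∩ V_ b = en (c b)}` is definable -/
theorem ds_tr {en : Ordinal.{u} → ZFSet.{u}} (hen : EN en) (hDER : T_DER.{u})
    {c : Ordinal.{u} → Ordinal.{u}} (hc : DR fun a b => b = c a) {y : ZFSet.{u}} (hy : OD y) :
    DS {b | y ∩ V_ b = en (c b)} := by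
  obtain ⟨d, hd, hd'⟩ := (hDER en hen).2.1 y hy
  obtain ⟨S, hS, hS'⟩ := dzc hen hc
  obtain ⟨T, hT, hT'⟩ := dzc hen hd
  have h1 : DZ fun v => ∃ x, S (v 0) x ∧ T (v 0) x :=
    DZ.ex (R := fun x v => S (v 0) x ∧ T (v 0) x) ((hS 1 0).and (hT 1 0))
  refine h1.do.congr fun w => ?_
  show y ∩ V_ (w 0) = en (c (w 0)) ↔ ∃ x, S (w 0).toZFSet x ∧ T (w 0).toZFSet x
  constructor
  · intro h
    exact ⟨_, (hS' _ _).2 rfl, (hT' _ _).2 (h.symm.trans (hd' _).symm)⟩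
  · rintro ⟨x, hx, h⟩
    rw [← hd', ← (hT' _ _).1 h, ← (hS' _ _).1 hx]

/-- the case of `∈` -/
theorem mem_case (hDER : T_DER.{u}) {κ : Ordinal.{u}} {W : ZFSet.{u}} (hW : NMe κ W)
    {x y : ZFSet.{u}} (hx : VH κ x) (hy : VH κ y)
    (hds : DS {b | x ∩ V_ b ∈ y ∩ V_ b}) :
    x ∈ y ↔ os κ {b | x ∩ V_ b ∈ y ∩ V_ b} ∈ W := by
  constructor
  · intro h
    have hr : x.rank < κ := mem_V.1 (hy.2 h)
    refine nm_large hW hds hr fun b _ hb => ?_
    show x ∩ V_ b ∈ y ∩ V_ b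
    rw [inter_eq (sub_V hb.le)]
    exact ZFSet.mem_inter.2 ⟨h, mem_V.2 hb⟩
  · intro h
    obtain ⟨en, hen⟩ := t_EN.{u}
    obtain ⟨c, hc, hc'⟩ := (hDER en hen).2.1 x hx.1.od
    have hR : DR fun j b => ¬ VH j (x ∩ V_ b) := by
      have h1 : DO fun w => ∃ d, d = c (w 1) ∧ VH (w 0) (en d) :=
        DO.ex (R := fun d w => d = c (w 1) ∧ VH (w 0) (en d))
          ((DO.s2 (X := fun a b => b = c a) hc 2 0).and
            (DO.s2 (X := fun a b => VH a (en b)) (hDER en hen).1 1 0))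
      refine h1.not.congr fun w => ?_
      simp only [exists_eq_left, hc']
    obtain ⟨j, hj, hjW⟩ : ∃ j < κ, os κ {b | VH j (x ∩ V_ b)} ∈ W := by
      by_contra hno
      push Not at hno
      have h4 := hW.nrm _ hR fun j hj => by
        have h5 := nm_not hW (X := {b | VH j (x ∩ V_ b)}) ?_ (hno j hj)
        · exact h5
        · exact (DO.sect1 hR j).not.congr fun w => by simp
      have hds' : DS {b | ∀ j < b, ¬ VH j (x ∩ V_ b)} :=
        DO.allLt (R := fun j w => ¬ VH j (x ∩ V_ (w 0))) 0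
          (DO.s2 (X := fun j b => ¬ VH j (x ∩ V_ b)) hR 0 1)
      have h5 := hW.int _ _ hds hds' h h4
      obtain ⟨b, -, hb1, hb2⟩ := nm_ne hW (ds_inter hds hds') h5
      have hb3 : x ∩ V_ b ∈ y ∩ V_ b := hb1
      have hb4 : (x ∩ V_ b).rank < b := mem_V.1 (ZFSet.mem_inter.1 hb3).2
      exact hb2 _ hb4 ⟨hod_iV hx.1 b, sub_V le_rfl⟩
    have hds2 : DS {b | VH j (x ∩ V_ b)} := (DO.sect1 hR j).not.congr fun w => by simp
    have hxj : x ⊆ V_ j := by
      intro z hz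
      have hzr : z.rank < κ := mem_V.1 (hx.2 hz)
      obtain ⟨b, hb, hzb, hb1, -⟩ := nm_meet hW hds2 hds2 hjW hjW hzr
      exact hb1.2 (ZFSet.mem_inter.2 ⟨hz, mem_V.2 hzb⟩)
    obtain ⟨b, hb, hjb, hb1, -⟩ := nm_meet hW hds hds h h hj
    have hb2 : x ∩ V_ b ∈ y ∩ V_ b := hb1
    rw [inter_eq (hxj.trans (sub_V ?_))] at hb2
    · exact (ZFSet.mem_inter.1 hb2).1
    · rw [ZFSet.rank_vonNeumann]
      exact hjb.le

/-- the case of `=` -/
theorem eq_case {κ : Ordinal.{u}} {W : ZFSet.{u}} (hW : NMe κ W)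
    {x y : ZFSet.{u}} (hx : VH κ x) (hy : VH κ y) (hds : DS {b | x ∩ V_ b = y ∩ V_ b}) :
    x = y ↔ os κ {b | x ∩ V_ b = y ∩ V_ b} ∈ W := by
  constructor
  · rintro rfl
    exact nm_large hW hds hW.lim.bot_lt fun b _ _ => rfl
  · intro h
    ext z
    constructor
    · intro hz
      have hzr : z.rank < κ := mem_V.1 (hx.2 hz)
      obtain ⟨b, hb, hzb, hb1, -⟩ := nm_meet hW hds hds h h hzr
      have hb2 : x ∩ V_ b = y ∩ V_ b := hb1
      have h3 : z ∈ x ∩ V_ b := ZFSet.mem_inter.2 ⟨hz, mem_V.2 hzb⟩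
      rw [hb2] at h3
      exact (ZFSet.mem_inter.1 h3).1
    · intro hz
      have hzr : z.rank < κ := mem_V.1 (hy.2 hz)
      obtain ⟨b, hb, hzb, hb1, -⟩ := nm_meet hW hds hds h h hzr
      have hb2 : x ∩ V_ b = y ∩ V_ b := hb1
      have h3 : z ∈ y ∩ V_ b := ZFSet.mem_inter.2 ⟨hz, mem_V.2 hzb⟩
      rw [← hb2] at h3
      exact (ZFSet.mem_inter.1 h3).1

theorem X (hLIV : T_LIV.{u}) (hDER : T_DER.{u}) : T_LOS.{u} := by
  intro κ W hW φ
  obtain ⟨en, hen⟩ := t_EN.{u}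
  have hD1 := (hDER en hen).1
  have hds : ∀ (φ : Fml) (v : ℕ → ZFSet.{u}), (∀ n, VH κ (v n)) →
      DS {b | Sat (VH b) φ (tr v b)} := fun φ v hv =>
    ((hDER en hen).2.2 φ v fun n => (hv n).1.od).1
  induction φ with
  | mem i j =>
    intro v hv
    exact mem_case hDER hW (hv i) (hv j) (hds (.mem i j) v hv)
  | eq i j =>
    intro v hv
    exact eq_case hW (hv i) (hv j) (hds (.eq i j) v hv)
  | neg φ ih =>
    intro v hv
    show ¬ Sat (VH κ) φ v ↔ os κ {b | Sat (VH b) φ (tr v b)}ᶜ ∈ W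
    rw [ih v hv, hW.ult _ (hds φ v hv), not_not]
  | and φ ψ ih1 ih2 =>
    intro v hv
    show (Sat (VH κ) φ v ∧ Sat (VH κ) ψ v) ↔
      os κ ({b | Sat (VH b) φ (tr v b)} ∩ {b | Sat (VH b) ψ (tr v b)}) ∈ W
    rw [ih1 v hv, ih2 v hv]
    have h1 := hds φ v hv
    have h2 := hds ψ v hv
    exact ⟨fun h => hW.int _ _ h1 h2 h.1 h.2, fun h =>
      ⟨hW.up _ _ (ds_inter h1 h2) h1 h fun b _ hb => hb.1,
        hW.up _ _ (ds_inter h1 h2) h2 h fun b _ hb => hb.2⟩⟩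
  | ex φ ih =>
    intro v hv
    have hcv : ∀ x, VH κ x → ∀ n, VH κ (cons x v n) := by
      intro x hx n
      rcases n with _ | n
      · exact hx
      · exact hv n
    have hE := hds (.ex φ) v hv
    show (∃ x, VH κ x ∧ Sat (VH κ) φ (cons x v)) ↔
      os κ {b | ∃ x, VH b x ∧ Sat (VH b) φ (cons x (tr v b))} ∈ W
    constructor
    · rintro ⟨x, hx, h⟩
      have h1 := (ih _ (hcv x hx)).1 h
      refine hW.up _ _ (hds φ _ (hcv x hx)) hE h1 fun b _ hb => ?_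
      have hb' : Sat (VH b) φ (tr (cons x v) b) := hb
      rw [tr_cons] at hb'
      exact ⟨x ∩ V_ b, vh_tr hx b, hb'⟩
    · intro h
      let c : Ordinal.{u} → Ordinal.{u} := fun b =>
        sInf {z | VH b (en z) ∧ Sat (VH b) φ (cons (en z) (tr v b))}
      have hD2 := ((hDER en hen).2.2 φ v fun n => (hv n).1.od).2.1
      have hc : DR fun a b => b = c a := by
        refine do_sInf (S := fun z w => VH (w 0) (en z) ∧
          Sat (VH (w 0)) φ (cons (en z) (tr v (w 0)))) ?_ 1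
        exact (DO.s2 (X := fun a b => VH a (en b)) hD1 1 0).and
          (DO.s2 (X := fun a b => Sat (VH a) φ (cons (en b) (tr v a))) hD2 1 0)
      have hck : ∀ b, (∃ x, VH b x ∧ Sat (VH b) φ (cons x (tr v b))) →
          VH b (en (c b)) ∧ Sat (VH b) φ (cons (en (c b)) (tr v b)) := by
        rintro b ⟨x, hx, hx'⟩
        obtain ⟨e, he⟩ := (hen.od x).1 hx.1.od
        have hne : ({z | VH b (en z) ∧
            Sat (VH b) φ (cons (en z) (tr v b))}).Nonempty := ⟨e, by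
          show VH b (en e) ∧ _
          rw [he]
          exact ⟨hx, hx'⟩⟩
        exact csInf_mem hne
      have hdc : DS {b | VH b (en (c b))} := by
        have h1 : DO fun w => ∃ d, d = c (w 0) ∧ VH (w 0) (en d) :=
          DO.ex (R := fun d w => d = c (w 0) ∧ VH (w 0) (en d))
            ((DO.s2 (X := fun a b => b = c a) hc 1 0).and
              (DO.s2 (X := fun a b => VH a (en b)) hD1 1 0))
        exact h1.congr fun w => by simp
      obtain ⟨S, hS, hS'⟩ := hLIV en hen κ W hW c hc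
        (hW.up _ _ hE hdc h fun b _ hb => (hck b hb).1)
      refine ⟨S, hS, (ih _ (hcv S hS)).2 ?_⟩
      have hdt := ds_tr hen hDER hc hS.1.od
      refine hW.up _ _ (ds_inter hE hdt) (hds φ _ (hcv S hS)) (hW.int _ _ hE hdt h hS')
        fun b _ hb => ?_
      show Sat (VH b) φ (tr (cons S v) b)
      rw [tr_cons, show S ∩ V_ b = en (c b) from hb.2]
      exact (hck b hb.1).2

end Pool.Agent.H68.HDB.LOS
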